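import Pool.Agent.Lib.MP_bae66e_nt.Mg.G125
import Pool.Agent.Lib.MP_bae66e_nt.Mg.G124
import Pool.Agent.Lib.MP_bae66e_nt.Mg.G121
import Pool.Agent.Lib.MP_bae66e_nt.Mg.G020
import Pool.Agent.Lib.MP_bae66e_nt.Mg.G022

/-!
# The two theorems
-/

set_option autoImplicit false

namespace Pool.Agent.Lib.MP_bae66e_nt.EF

open Finset MeasureTheory Real
open Pool.Agent.E3

/-- the Hardy-Littlewood formula for almost all even `m` -/
theorem hardy_littlewood : ∃ a₀ : ℝ, 3 ≤ a₀ ∧ ∀ a : ℝ, a₀ ≤ a → FING a := by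
  obtain ⟨a₀, ha₀, hC⟩ := coreg
  refine ⟨a₀ + 1 / 2, by linarith, fun a ha => ?_⟩
  have ha3 : 3 ≤ a := by linarith
  have h1 : WINF a := winf_of a ha3 (hC _ (by linarith))
  exact fing_of a ha3 (counta_of a ha3 (firf_of a ha3 h1 (vareg_of a ha3)))

/-- a positive proportion of the `r` for almost all even `m` -/
theorem positive_proportion : ∃ c a₀ : ℝ, 0 < c ∧ 3 ≤ a₀ ∧ ∀ a : ℝ, a₀ ≤ a → FING a ∧ POSF c a := by
  obtain ⟨a₀, ha₀, hF⟩ := hardy_littlewood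
  obtain ⟨C, a₁, hC, ha₁, hS⟩ := secf_of
  obtain ⟨c, hc, hP⟩ := posf_of C hC
  refine ⟨c, max a₀ a₁, hc, ha₀.trans (le_max_left _ _), fun a ha => ?_⟩
  have h1 : a₀ ≤ a := (le_max_left _ _).trans ha
  have h2 : a₁ ≤ a := (le_max_right _ _).trans ha
  exact ⟨hF a h1, hP a (ha₀.trans h1) (hF a h1) (hS a h2)⟩

end Pool.Agent.Lib.MP_bae66e_nt.EF
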