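import Pool.Agent.Lib.MP_bae66e_nt.EF.Fin
import Pool.Agent.Lib.MP_bae66e_nt.Mg.G126

/-!
# The final form: uniform in `R`, complex weights, `log m` in place of `log N`
-/

set_option autoImplicit false

namespace Pool.Agent.Lib.MP_bae66e_nt.EF

open Finset MeasureTheory Real
open Pool.Agent.E3
open Pool.Agent.Lib.MP_bae66e_nt.AP3 (prI mem_prI)

/-- from the ranges around `(log N)^a` to `(log N)^a₀ ≤ R ≤ (log N)^A` -/
theorem unif (P : ℕ → ℕ → Prop) (a₀ A : ℝ)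
    (h : ∀ a : ℝ, a₀ ≤ a → ∃ N₀ : ℕ, ∀ N : ℕ, N₀ ≤ N → ∀ R : ℕ, (Real.log N) ^ (a - 1 / 4) ≤ R →
      (R : ℝ) ≤ (Real.log N) ^ (a + 1 / 4) → P N R) :
    ∃ N₀ : ℕ, ∀ N : ℕ, N₀ ≤ N → ∀ R : ℕ, (Real.log N) ^ a₀ ≤ R → (R : ℝ) ≤ (Real.log N) ^ A → P N R := by
  classical
  have h' : ∀ k : ℕ, ∃ N₀ : ℕ, ∀ N : ℕ, N₀ ≤ N → ∀ R : ℕ, (Real.log N) ^ (a₀ + k / 4 - 1 / 4) ≤ R →
      (R : ℝ) ≤ (Real.log N) ^ (a₀ + k / 4 + 1 / 4) → P N R := by
    intro k
    refine h _ ?_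
    have : (0 : ℝ) ≤ k / 4 := by positivity
    linarith
  choose f hf using h'
  obtain ⟨K, hK⟩ := exists_nat_ge (4 * (A - a₀))
  refine ⟨max 3 ((range (K + 1)).sup f), fun N hN R h1 h2 => ?_⟩
  have hN3 : 3 ≤ N := (le_max_left _ _).trans hN
  have hl1 : 1 ≤ Real.log N := by
    rw [Real.le_log_iff_exp_le (by exact_mod_cast (by omega : 0 < N))]
    have h3 := Real.exp_one_lt_d9
    have h4 : (3 : ℝ) ≤ N := by exact_mod_cast hN3
    linarith
  have hex : ∃ k : ℕ, (R : ℝ) ≤ (Real.log N) ^ (a₀ + k / 4 + 1 / 4) := by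
    refine ⟨K, h2.trans (Real.rpow_le_rpow_of_exponent_le hl1 ?_)⟩
    linarith
  obtain ⟨k, hk⟩ : ∃ k : ℕ, k = Nat.find hex := ⟨_, rfl⟩
  have hk1 := Nat.find_spec hex
  rw [← hk] at hk1
  have hkK : k ≤ K := by
    rw [hk]
    refine Nat.find_min' hex (h2.trans (Real.rpow_le_rpow_of_exponent_le hl1 ?_))
    linarith
  refine hf k N ?_ R ?_ hk1
  · refine le_trans ?_ ((le_max_right _ _).trans hN)
    exact Finset.le_sup (f := f) (mem_range.mpr (by omega))
  · rcases Nat.eq_zero_or_pos k with h0 | h0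
    · rw [h0]
      refine le_trans (Real.rpow_le_rpow_of_exponent_le hl1 ?_) h1
      push_cast
      linarith
    · have h3 : ¬ (R : ℝ) ≤ (Real.log N) ^ (a₀ + ((k - 1 : ℕ) : ℝ) / 4 + 1 / 4) := by
        have := Nat.find_min hex (m := k - 1) (by omega)
        exact this
      rw [not_le] at h3
      refine le_trans (Real.rpow_le_rpow_of_exponent_le hl1 ?_) h3.le
      rw [Nat.cast_sub h0]
      push_cast
      linarith

open Classical in
/-- the number of the primes `p ≤ y` with `m = p + r q` for a prime `q` -/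
noncomputable def rp (m r y : ℕ) : ℕ := #{p ∈ Icc 1 y | p.Prime ∧ ∃ q : ℕ, q.Prime ∧ m = p + r * q}

/-- the expected number -/
noncomputable def ex (m r y : ℕ) : ℝ := Pool.Agent.MG.sing m * (Nat.primeCounting y / (r * Real.log m))

theorem cs_eq (R m s : ℕ) (hs : s.Prime) : cs R m s = rp m s (2 * R ^ 2) := by
  unfold cs rp HR
  congr 1
  ext t
  simp only [mem_filter]
  constructor
  · rintro ⟨h1, h2, h3, h4⟩
    refine ⟨h1, h2, (m - t) / s, h4, ?_⟩
    have h5 : s * ((m - t) / s) = m - t := Nat.mul_div_cancel' h3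
    have h6 : 0 < m - t := by
      rcases Nat.eq_zero_or_pos (m - t) with h | h
      · rw [h, Nat.zero_div] at h4
        exact absurd h4 Nat.not_prime_zero
      · exact h
    omega
  · rintro ⟨h1, h2, q, h3, h4⟩
    have h5 : m - t = s * q := by omega
    refine ⟨h1, h2, ?_, ?_⟩
    · rw [h5]; exact Dvd.intro _ rfl
    · rw [h5, Nat.mul_div_cancel_left q hs.pos]; exact h3

/-- one weight between `0` and `1` -/
theorem one_weight (α : ℕ → ℝ) (hα : Wt α) (R N m : ℕ) (ε' η : ℝ) (hη : 0 ≤ η) (hε : 0 ≤ ε')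
    (hrec : 1 / (8 * Real.log R) ≤ ∑ r ∈ IS R, 1 / (r : ℝ)) (hlN : 0 < Real.log N) (hlm : 0 < Real.log m)
    (h1 : (1 - η) * Real.log N ≤ Real.log m) (h2 : Real.log m ≤ Real.log N)
    (hS : 0 ≤ Pool.Agent.MG.sing m)
    (h : |cnt α R m - Pool.Agent.MG.sing m * (Nat.primeCounting (HR R) / Real.log N) *
      ∑ s ∈ IS R, α s / s| ≤ ε' * (Pool.Agent.MG.sing m * (Nat.primeCounting (HR R) / (Real.log N * Real.log R)))) :
    |∑ r ∈ IS R, α r * ((rp m r (2 * R ^ 2) : ℝ) - ex m r (2 * R ^ 2))| ≤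
      (8 * ε' + η) * ∑ r ∈ IS R, ex m r (2 * R ^ 2) := by
  obtain ⟨S, hSd⟩ : ∃ S : ℝ, S = Pool.Agent.MG.sing m * Nat.primeCounting (2 * R ^ 2) := ⟨_, rfl⟩
  have hS0 : 0 ≤ S := by rw [hSd]; positivity
  obtain ⟨lN, hlNd⟩ : ∃ x : ℝ, x = Real.log N := ⟨_, rfl⟩
  obtain ⟨lm, hlmd⟩ : ∃ x : ℝ, x = Real.log m := ⟨_, rfl⟩
  have hex : ∀ r, ex m r (2 * R ^ 2) = S / lm * (1 / r) := by
    intro r
    unfold ex
    rw [hSd, ← hlmd]
    rcases Nat.eq_zero_or_pos r with h0 | h0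
    · rw [h0]; simp
    · have : (0 : ℝ) < r := by exact_mod_cast h0
      rw [← hlmd] at hlm
      field_simp
  have hcnt : cnt α R m = ∑ r ∈ IS R, α r * (rp m r (2 * R ^ 2) : ℝ) := by
    unfold cnt
    refine Finset.sum_congr rfl fun r hr => ?_
    rw [← cs_eq R m r (mem_prI.mp hr).2]
    rfl
  have hHR : HR R = 2 * R ^ 2 := rfl
  rw [hHR, hcnt] at h
  rw [← hlNd] at h hlN h1 h2
  rw [← hlmd] at hlm h1 h2
  have e1 : Pool.Agent.MG.sing m * ((Nat.primeCounting (2 * R ^ 2) : ℝ) / lN) * ∑ s ∈ IS R, α s / s =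
      S / lN * ∑ s ∈ IS R, α s / s := by rw [hSd]; ring
  have e2 : Pool.Agent.MG.sing m * ((Nat.primeCounting (2 * R ^ 2) : ℝ) / (lN * Real.log R)) =
      8 * (S / lN * (1 / (8 * Real.log R))) := by
    rw [hSd]
    rcases eq_or_ne (Real.log R) 0 with h0 | h0
    · rw [h0]; simp
    · field_simp
  rw [e1, e2] at h
  obtain ⟨T₁, hT⟩ : ∃ x : ℝ, x = ∑ r ∈ IS R, 1 / (r : ℝ) := ⟨_, rfl⟩
  have hT0 : 0 ≤ T₁ := by rw [hT]; exact Finset.sum_nonneg fun r _ => by positivity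
  have hsumex : ∑ r ∈ IS R, ex m r (2 * R ^ 2) = S / lm * T₁ := by
    rw [hT, Finset.mul_sum]
    exact Finset.sum_congr rfl fun r _ => hex r
  have hlN' : 0 ≤ S / lN := by positivity
  have hlm' : 0 ≤ S / lm := by positivity
  have hle : S / lN ≤ S / lm := div_le_div_of_nonneg_left hS0 hlm h2
  have hd : S / lm - S / lN ≤ η * (S / lm) := by
    have h3 : S / lN * lN = S := by field_simp
    have h4 : (1 - η) * (S / lm) ≤ S / lN := by
      rw [le_div_iff₀ hlN]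
      calc (1 - η) * (S / lm) * lN = ((1 - η) * lN) * (S / lm) := by ring
        _ ≤ lm * (S / lm) := mul_le_mul_of_nonneg_right h1 hlm'
        _ = S := by field_simp
    linarith
  have hA0 : 0 ≤ ∑ s ∈ IS R, α s / s := Finset.sum_nonneg fun s _ => by
    have := (hα s).1
    positivity
  have hA1 : ∑ s ∈ IS R, α s / s ≤ T₁ := by
    rw [hT]
    refine Finset.sum_le_sum fun s _ => ?_
    exact div_le_div_of_nonneg_right (hα s).2 (by positivity)
  have e3 : ∑ r ∈ IS R, α r * ((rp m r (2 * R ^ 2) : ℝ) - ex m r (2 * R ^ 2)) =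
      (∑ r ∈ IS R, α r * (rp m r (2 * R ^ 2) : ℝ) - S / lN * ∑ s ∈ IS R, α s / s) -
        (S / lm - S / lN) * ∑ s ∈ IS R, α s / s := by
    have : ∑ r ∈ IS R, α r * ex m r (2 * R ^ 2) = S / lm * ∑ s ∈ IS R, α s / s := by
      rw [Finset.mul_sum]
      refine Finset.sum_congr rfl fun r _ => ?_
      rw [hex]
      ring
    calc ∑ r ∈ IS R, α r * ((rp m r (2 * R ^ 2) : ℝ) - ex m r (2 * R ^ 2)) =
        ∑ r ∈ IS R, α r * (rp m r (2 * R ^ 2) : ℝ) - ∑ r ∈ IS R, α r * ex m r (2 * R ^ 2) := by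
          rw [← Finset.sum_sub_distrib]
          exact Finset.sum_congr rfl fun r _ => by ring
      _ = _ := by rw [this]; ring
  rw [e3]
  refine (abs_sub _ _).trans ?_
  have h5 : |(S / lm - S / lN) * ∑ s ∈ IS R, α s / s| ≤ η * (S / lm) * T₁ := by
    rw [abs_of_nonneg (mul_nonneg (by linarith) hA0)]
    exact mul_le_mul hd hA1 hA0 (by positivity)
  have h6 : ε' * (8 * (S / lN * (1 / (8 * Real.log R)))) ≤ 8 * ε' * (S / lm * T₁) := by
    calc ε' * (8 * (S / lN * (1 / (8 * Real.log R)))) = 8 * ε' * (S / lN * (1 / (8 * Real.log R))) := by ring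
      _ ≤ 8 * ε' * (S / lN * T₁) := by
          refine mul_le_mul_of_nonneg_left ?_ (by positivity)
          exact mul_le_mul_of_nonneg_left (by rw [hT]; exact hrec) hlN'
      _ ≤ 8 * ε' * (S / lm * T₁) := by
          refine mul_le_mul_of_nonneg_left ?_ (by positivity)
          exact mul_le_mul_of_nonneg_right hle hT0
  rw [hsumex]
  calc _ ≤ 8 * ε' * (S / lm * T₁) + η * (S / lm) * T₁ := add_le_add (h.trans h6) h5
    _ = (8 * ε' + η) * (S / lm * T₁) := by ring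

/-- complex weights from the weights between `0` and `1` -/
theorem complex_weight (s : Finset ℕ) (α : ℕ → ℂ) (d : ℕ → ℝ) (B : ℝ)
    (h1 : |∑ r ∈ s, max (α r).re 0 * d r| ≤ B) (h2 : |∑ r ∈ s, max (-(α r).re) 0 * d r| ≤ B)
    (h3 : |∑ r ∈ s, max (α r).im 0 * d r| ≤ B) (h4 : |∑ r ∈ s, max (-(α r).im) 0 * d r| ≤ B) :
    ‖∑ r ∈ s, α r * ((d r : ℝ) : ℂ)‖ ≤ 4 * B := by
  have hm : ∀ x : ℝ, max x 0 - max (-x) 0 = x := by
    intro x
    rcases le_total x 0 with h | h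
    · rw [max_eq_right h, max_eq_left (by linarith)]; ring
    · rw [max_eq_left h, max_eq_right (by linarith)]; ring
  have hre : (∑ r ∈ s, α r * ((d r : ℝ) : ℂ)).re =
      ∑ r ∈ s, max (α r).re 0 * d r - ∑ r ∈ s, max (-(α r).re) 0 * d r := by
    rw [Complex.re_sum, ← Finset.sum_sub_distrib]
    refine Finset.sum_congr rfl fun r _ => ?_
    rw [Complex.re_mul_ofReal, ← sub_mul, hm]
  have him : (∑ r ∈ s, α r * ((d r : ℝ) : ℂ)).im =
      ∑ r ∈ s, max (α r).im 0 * d r - ∑ r ∈ s, max (-(α r).im) 0 * d r := by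
    rw [Complex.im_sum, ← Finset.sum_sub_distrib]
    refine Finset.sum_congr rfl fun r _ => ?_
    rw [Complex.im_mul_ofReal, ← sub_mul, hm]
  refine (Complex.norm_le_abs_re_add_abs_im _).trans ?_
  rw [hre, him]
  have g1 := abs_sub (∑ r ∈ s, max (α r).re 0 * d r) (∑ r ∈ s, max (-(α r).re) 0 * d r)
  have g2 := abs_sub (∑ r ∈ s, max (α r).im 0 * d r) (∑ r ∈ s, max (-(α r).im) 0 * d r)
  linarith

/-- the final form -/
theorem final_form : ∃ c a₀ : ℝ, 0 < c ∧ ∀ A ε δ : ℝ, 0 < ε → 0 < δ → ∃ N₀ : ℕ, ∀ N : ℕ, N₀ ≤ N →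
    ∀ R : ℕ, (Real.log N) ^ a₀ ≤ R → (R : ℝ) ≤ (Real.log N) ^ A → ∀ α : ℕ → ℂ, (∀ r, ‖α r‖ ≤ 1) →
    (#{m ∈ Icc 1 N | Even m ∧ ¬ (
      ‖∑ r ∈ IS R, α r * (((rp m r (2 * R ^ 2) : ℝ) - ex m r (2 * R ^ 2) : ℝ) : ℂ)‖ ≤
        ε * ∑ r ∈ IS R, ex m r (2 * R ^ 2) ∧
      c * (#(IS R) : ℝ) ≤ (#{r ∈ IS R | c * ex m r (2 * R ^ 2) ≤ rp m r (2 * R ^ 2)} : ℝ))} : ℝ) ≤ δ * N := by
  classical
  obtain ⟨c, a₀, hc, ha₀, hmain⟩ := positive_proportion
  obtain ⟨R₀, hR₀, hrec⟩ := recip_IS_ge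
  refine ⟨c / 2, a₀, by positivity, fun A ε δ hε hδ => ?_⟩
  obtain ⟨η, hηd⟩ : ∃ η : ℝ, η = min (1 / 2) (ε / 8) := ⟨_, rfl⟩
  have hη0 : 0 < η := by rw [hηd]; exact lt_min (by norm_num) (by positivity)
  have hη1 : η ≤ 1 / 2 := by rw [hηd]; exact min_le_left _ _
  have hη2 : η ≤ ε / 8 := by rw [hηd]; exact min_le_right _ _
  obtain ⟨N₁, h1⟩ := unif (fun N R => ∀ α : ℕ → ℝ, Wt α →
    (#{m ∈ Icc 1 N | Even m ∧
      ε / 64 * (Pool.Agent.MG.sing m * (Nat.primeCounting (HR R) / (Real.log N * Real.log R))) <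
        |cnt α R m - Pool.Agent.MG.sing m * (Nat.primeCounting (HR R) / Real.log N) *
          ∑ s ∈ IS R, α s / s|} : ℝ) ≤ δ / 8 * N) a₀ A (fun a ha => by
      obtain ⟨N₀, h⟩ := (hmain a ha).1 (ε / 64) (δ / 8) (by positivity) (by positivity)
      exact ⟨N₀, fun N hN R hR1 hR2 α hα => h N hN α hα R hR1 hR2⟩)
  obtain ⟨N₂, h2⟩ := unif (fun N R =>
    (#{m ∈ Icc 1 N | Even m ∧ ((goodF c N R m).card : ℝ) < c * (IS R).card} : ℝ) ≤ δ / 8 * N) a₀ A
      (fun a ha => by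
      obtain ⟨N₀, h⟩ := (hmain a ha).2 (δ / 8) (by positivity)
      exact ⟨N₀, fun N hN R hR1 hR2 => h N hN R hR1 hR2⟩)
  have hLt : Filter.Tendsto (fun X : ℕ => Real.log X) Filter.atTop Filter.atTop :=
    Real.tendsto_log_atTop.comp tendsto_natCast_atTop_atTop
  obtain ⟨N₃, h3⟩ := Filter.eventually_atTop.mp
    (hLt.eventually_ge_atTop (1 + R₀ + (|Real.log (δ / 8)| + 1) / η))
  refine ⟨max N₁ (max N₂ (max N₃ 3)), fun N hN R hR1 hR2 α hα => ?_⟩
  have hN1 : N₁ ≤ N := (le_max_left _ _).trans hN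
  have hN2 : N₂ ≤ N := ((le_max_left _ _).trans (le_max_right _ _)).trans hN
  have hN3 : N₃ ≤ N := ((le_max_left _ _).trans ((le_max_right _ _).trans (le_max_right _ _))).trans hN
  have hN4 : 3 ≤ N := ((le_max_right _ _).trans ((le_max_right _ _).trans (le_max_right _ _))).trans hN
  have hlog := h3 N hN3
  have hN0 : (0 : ℝ) < N := by exact_mod_cast (by omega : 0 < N)
  obtain ⟨lN, hlN⟩ : ∃ x : ℝ, x = Real.log N := ⟨_, rfl⟩
  rw [← hlN] at hlog
  have hq0 : 0 ≤ (|Real.log (δ / 8)| + 1) / η := by positivity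
  have hR₀r : (0 : ℝ) ≤ R₀ := Nat.cast_nonneg _
  have hlN1 : 1 ≤ lN := by linarith
  have hηlN : |Real.log (δ / 8)| + 1 ≤ η * lN := by
    have : (|Real.log (δ / 8)| + 1) / η ≤ lN := by linarith
    rw [div_le_iff₀ hη0] at this
    linarith
  have hRR : R₀ ≤ R := by
    have h4 : (R₀ : ℝ) ≤ R := by
      refine le_trans ?_ hR1
      rw [← hlN]
      calc (R₀ : ℝ) ≤ lN := by linarith
        _ = lN ^ (1 : ℝ) := (Real.rpow_one _).symm
        _ ≤ lN ^ a₀ := Real.rpow_le_rpow_of_exponent_le hlN1 (by linarith)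
    exact_mod_cast h4
  have hrecR := hrec R hRR
  -- the weights
  have hW1 : Wt (fun r => max (α r).re 0) := fun r => ⟨le_max_right _ _,
    max_le ((Complex.abs_re_le_norm _).trans (hα r) |> (le_abs_self _).trans) zero_le_one⟩
  have hW2 : Wt (fun r => max (-(α r).re) 0) := fun r => ⟨le_max_right _ _,
    max_le ((Complex.abs_re_le_norm _).trans (hα r) |> (neg_le_abs _).trans) zero_le_one⟩
  have hW3 : Wt (fun r => max (α r).im 0) := fun r => ⟨le_max_right _ _,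
    max_le ((Complex.abs_im_le_norm _).trans (hα r) |> (le_abs_self _).trans) zero_le_one⟩
  have hW4 : Wt (fun r => max (-(α r).im) 0) := fun r => ⟨le_max_right _ _,
    max_le ((Complex.abs_im_le_norm _).trans (hα r) |> (neg_le_abs _).trans) zero_le_one⟩
  set BB : (ℕ → ℝ) → Finset ℕ := fun β => {m ∈ Icc 1 N | Even m ∧
      ε / 64 * (Pool.Agent.MG.sing m * (Nat.primeCounting (HR R) / (Real.log N * Real.log R))) <
        |cnt β R m - Pool.Agent.MG.sing m * (Nat.primeCounting (HR R) / Real.log N) *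
          ∑ s ∈ IS R, β s / s|} with hBB
  have hb : ∀ β, Wt β → ((BB β).card : ℝ) ≤ δ / 8 * N := fun β hβ => h1 N hN1 R hR1 hR2 β hβ
  set GG : Finset ℕ := {m ∈ Icc 1 N | Even m ∧ ((goodF c N R m).card : ℝ) < c * (IS R).card} with hGG
  have hg : (GG.card : ℝ) ≤ δ / 8 * N := h2 N hN2 R hR1 hR2
  set SS : Finset ℕ := {m ∈ Icc 1 N | (m : ℝ) ≤ δ / 8 * N} with hSS
  have hs : (SS.card : ℝ) ≤ δ / 8 * N := by
    have h5 : SS ⊆ Icc 1 ⌊δ / 8 * N⌋₊ := by
      intro m hm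
      obtain ⟨h6, h7⟩ := mem_filter.mp hm
      rw [mem_Icc] at h6 ⊢
      exact ⟨h6.1, Nat.le_floor h7⟩
    have h6 := card_le_card h5
    rw [Nat.card_Icc, Nat.add_sub_cancel] at h6
    refine le_trans ?_ (Nat.floor_le (by positivity))
    exact_mod_cast h6
  have hsub : ({m ∈ Icc 1 N | Even m ∧ ¬ (
      ‖∑ r ∈ IS R, α r * (((rp m r (2 * R ^ 2) : ℝ) - ex m r (2 * R ^ 2) : ℝ) : ℂ)‖ ≤
        ε * ∑ r ∈ IS R, ex m r (2 * R ^ 2) ∧
      c / 2 * (#(IS R) : ℝ) ≤ (#{r ∈ IS R | c / 2 * ex m r (2 * R ^ 2) ≤ rp m r (2 * R ^ 2)} : ℝ))} : Finset ℕ) ⊆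
      ((((BB fun r => max (α r).re 0) ∪ (BB fun r => max (-(α r).re) 0)) ∪
        ((BB fun r => max (α r).im 0) ∪ (BB fun r => max (-(α r).im) 0))) ∪ (GG ∪ SS)) := by
    intro m hm
    obtain ⟨hm1, hm2, hm3⟩ := mem_filter.mp hm
    by_contra hcon
    simp only [mem_union, not_or] at hcon
    obtain ⟨⟨⟨k1, k2⟩, k3, k4⟩, k5, k6⟩ := hcon
    apply hm3
    rw [mem_Icc] at hm1
    have hmN : (m : ℝ) ≤ N := by exact_mod_cast hm1.2
    have hm0 : (0 : ℝ) < m := by exact_mod_cast (by omega : 0 < m)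
    have hmδ : δ / 8 * N < m := by
      by_contra h5
      exact k6 (mem_filter.mpr ⟨mem_Icc.mpr hm1, not_lt.mp h5⟩)
    have hlm1 : Real.log m ≤ lN := by rw [hlN]; exact Real.log_le_log hm0 hmN
    have hlm2 : (1 - η) * lN ≤ Real.log m := by
      have h5 : Real.log (δ / 8 * N) ≤ Real.log m := Real.log_le_log (by positivity) hmδ.le
      rw [Real.log_mul (by positivity) (by positivity), ← hlN] at h5
      have h6 := neg_abs_le (Real.log (δ / 8))
      nlinarith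
    have hlm0 : 0 < Real.log m := by
      have : (1 : ℝ) / 2 * lN ≤ (1 - η) * lN := mul_le_mul_of_nonneg_right (by linarith) (by linarith)
      linarith
    have hS0 : 0 ≤ Pool.Agent.MG.sing m := by
      have h5 := (Pool.Agent.MG.sing_bounds m (by omega)).1
      have h6 := Pool.Agent.MG.twinConst_pos.1
      linarith
    have hone : ∀ β : ℕ → ℝ, Wt β → m ∉ BB β →
        |∑ r ∈ IS R, β r * ((rp m r (2 * R ^ 2) : ℝ) - ex m r (2 * R ^ 2))| ≤
          ε / 4 * ∑ r ∈ IS R, ex m r (2 * R ^ 2) := by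
      intro β hβ hmB
      have h5 : |cnt β R m - Pool.Agent.MG.sing m * (Nat.primeCounting (HR R) / Real.log N) *
          ∑ s ∈ IS R, β s / s| ≤
          ε / 64 * (Pool.Agent.MG.sing m * (Nat.primeCounting (HR R) / (Real.log N * Real.log R))) := by
        by_contra h6
        exact hmB (mem_filter.mpr ⟨mem_Icc.mpr hm1, hm2, not_le.mp h6⟩)
      refine (one_weight β hβ R N m (ε / 64) η hη0.le (by positivity) hrecR (by rw [← hlN]; linarith) hlm0
        (by rw [← hlN]; exact hlm2) (by rw [← hlN]; exact hlm1) hS0 h5).trans ?_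
      refine mul_le_mul_of_nonneg_right (by linarith) ?_
      refine Finset.sum_nonneg fun r _ => ?_
      unfold ex
      positivity
    constructor
    · have h5 := complex_weight (IS R) α (fun r => (rp m r (2 * R ^ 2) : ℝ) - ex m r (2 * R ^ 2))
        (ε / 4 * ∑ r ∈ IS R, ex m r (2 * R ^ 2)) (hone _ hW1 k1) (hone _ hW2 k2) (hone _ hW3 k3) (hone _ hW4 k4)
      refine h5.trans (le_of_eq ?_)
      ring
    · have h5 : c * (#(IS R) : ℝ) ≤ ((goodF c N R m).card : ℝ) := by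
        by_contra h6
        exact k5 (mem_filter.mpr ⟨mem_Icc.mpr hm1, hm2, not_le.mp h6⟩)
      have h6 : c / 2 * (#(IS R) : ℝ) ≤ c * (#(IS R) : ℝ) :=
        mul_le_mul_of_nonneg_right (by linarith) (Nat.cast_nonneg _)
      refine (h6.trans h5).trans ?_
      refine Nat.cast_le.mpr (card_le_card ?_)
      intro r hr
      unfold goodF at hr
      obtain ⟨hr1, hr2⟩ := mem_filter.mp hr
      refine mem_filter.mpr ⟨hr1, ?_⟩
      rw [← cs_eq R m r (mem_prI.mp hr1).2]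
      refine le_trans ?_ hr2
      unfold ex
      have hr0 : (0 : ℝ) < r := by exact_mod_cast (mem_prI.mp hr1).2.pos
      have hHR : HR R = 2 * R ^ 2 := rfl
      rw [hHR, ← hlN]
      have h7 : (Nat.primeCounting (2 * R ^ 2) : ℝ) / (r * Real.log m) ≤
          2 * ((Nat.primeCounting (2 * R ^ 2) : ℝ) / (r * lN)) := by
        have h8 : lN ≤ 2 * Real.log m := by
          have : (1 : ℝ) / 2 * lN ≤ (1 - η) * lN := mul_le_mul_of_nonneg_right (by linarith) (by linarith)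
          linarith
        have e : 2 * ((Nat.primeCounting (2 * R ^ 2) : ℝ) / (r * lN)) =
            (Nat.primeCounting (2 * R ^ 2) : ℝ) / (r * (lN / 2)) := by
          have : (0 : ℝ) < lN := by linarith
          field_simp
        rw [e]
        have : (0 : ℝ) < lN := by linarith
        refine div_le_div_of_nonneg_left (by positivity) (by positivity) ?_
        exact mul_le_mul_of_nonneg_left (by linarith) hr0.le
      calc c / 2 * (Pool.Agent.MG.sing m * ((Nat.primeCounting (2 * R ^ 2) : ℝ) / (r * Real.log m)))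
          ≤ c / 2 * (Pool.Agent.MG.sing m * (2 * ((Nat.primeCounting (2 * R ^ 2) : ℝ) / (r * lN)))) := by
            gcongr
        _ = c * (Pool.Agent.MG.sing m * ((Nat.primeCounting (2 * R ^ 2) : ℝ) / (r * lN))) := by ring
  refine (Nat.cast_le.mpr (card_le_card hsub)).trans ?_
  have c1 := hb _ hW1
  have c2 := hb _ hW2
  have c3 := hb _ hW3
  have c4 := hb _ hW4
  have hun : ∀ U V : Finset ℕ, ((U ∪ V).card : ℝ) ≤ (U.card : ℝ) + V.card := fun U V => by
    exact_mod_cast card_union_le U V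
  have u1 := hun ((((BB fun r => max (α r).re 0) ∪ (BB fun r => max (-(α r).re) 0)) ∪
        ((BB fun r => max (α r).im 0) ∪ (BB fun r => max (-(α r).im) 0)))) (GG ∪ SS)
  have u2 := hun ((BB fun r => max (α r).re 0) ∪ (BB fun r => max (-(α r).re) 0))
    ((BB fun r => max (α r).im 0) ∪ (BB fun r => max (-(α r).im) 0))
  have u3 := hun (BB fun r => max (α r).re 0) (BB fun r => max (-(α r).re) 0)
  have u4 := hun (BB fun r => max (α r).im 0) (BB fun r => max (-(α r).im) 0)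
  have u5 := hun GG SS
  have hN8 : 0 ≤ δ / 8 * N := by positivity
  linarith

end Pool.Agent.Lib.MP_bae66e_nt.EF
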